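import Pool.Agent.Lib.RC.AAll
import Pool.Agent.Lib.RC.Asm82
import Pool.Agent.Lib.RC.Main5
import Pool.Agent.Lib.RC.B_ALL
import Pool.Agent.Lib.RC.B_CHAIN
import Pool.Agent.Lib.RC.B_STEP
import Pool.Agent.Lib.RC.B_PI1
import Pool.Agent.Lib.RC.B_FIN
import Pool.Agent.Lib.RC.B_DALG
import Pool.Agent.Lib.RC.B_CEXT
import Pool.Agent.Lib.RC.B_CCH

open AlgebraicGeometry CategoryTheory

namespace Pool.Agent.Results.MP_73c785_ag.ConicOnRC

open Pool.Agent.Lib.RC Pool.Agent.RC

/-- A smooth proper geometrically integral real variety without real points whose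
complexification is rationally connected receives a nonconstant real morphism from the conic
`x² + y² + z² = 0`. -/
theorem result (X : Scheme.{0}) (s : X ⟶ Spec (.of ℝ)) [Smooth s] [IsProper s]
    [GeometricallyIntegral s] (hRC : RationallyConnected (complexify s))
    (hR : ∀ x : Spec (.of ℝ) ⟶ X, x ≫ s ≠ 𝟙 _) :
    ∃ f : C0 ⟶ X, f ≫ s = C0str ∧ ∃ a b : C0, f a ≠ f b :=
  S82.result_of
    (G.st_MAIN_of thm_Asph (G.st_ALL (G.st_STEP thm_Atr) G.st_B0 G.st_CHAIN) (P77.st_PI1 thm_Ator)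
      G.stALG)
    st_DALG (st_FIN st_DALG st_CCH st_CEXT) X s hRC hR

end Pool.Agent.Results.MP_73c785_ag.ConicOnRC
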