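import Mathlib
import Pool.Agent.Lib.MP_73c785_ag.Main

set_option autoImplicit false

open MvPolynomial

namespace Pool.Agent.Results.MP_73c785_ag.DegreeTwoModFour

/-- Real hypersurfaces of degree `d ≡ 2 mod 4` in the weighted projective space `P(a,1,...,1)`,
in the whole Fano range `d < N + a`, without real points receive a nonconstant real morphism
from the conic without real points. -/
theorem result (N a d : ℕ) (ha : 0 < a) (hd : d % 4 = 2) (hN : d < N + a)
    (F : MvPolynomial (Option (Fin N)) ℝ)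
    (hF : F.IsWeightedHomogeneous (fun i => i.elim a fun _ => 1) d)
    (hreal : ∀ y : Option (Fin N) → ℝ, eval y F = 0 → y = 0) :
    ∃ L : Option (Fin N) → MvPolynomial (Fin 3) ℝ,
      (L none).IsHomogeneous a ∧ (∀ j, (L (some j)).IsHomogeneous 1) ∧
      (∀ p : Fin 3 → ℂ, p ≠ 0 → p 0 ^ 2 + p 1 ^ 2 + p 2 ^ 2 = 0 →
        ∃ j, aeval p (L (some j)) ≠ 0) ∧
      (X 0 ^ 2 + X 1 ^ 2 + X 2 ^ 2 : MvPolynomial (Fin 3) ℝ) ∣ bind₁ L F := by
  obtain ⟨L, h1, h2, h3⟩ := Pool.Agent.Lib.MP_73c785_ag.main ha hd hN hF hreal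
  exact ⟨L, h1 none, fun j => h1 (some j), h2, h3⟩

end Pool.Agent.Results.MP_73c785_ag.DegreeTwoModFour
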