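import Mathlib
import Pool.Agent.Lib.MP_73c785_ag.H74K

set_option autoImplicit false

open MvPolynomial

namespace Pool.Agent.Results.MP_73c785_ag.LangC1

/-- Every field of transcendence degree one over `ℝ` in which `-1` is a sum of squares (for
instance the function field of any real curve without real points) is a `C_1` field, in the
strong form for systems of weighted homogeneous polynomials. -/
theorem result (K : Type*) [Field K] [Algebra ℝ K] (hK : Algebra.trdeg ℝ K = 1)
    (hneg : IsSumSq (-1 : K))
    (n r : ℕ) (a : Fin n → ℕ) (d : Fin r → ℕ) (ha : ∀ j, 0 < a j) (hd : ∀ i, 0 < d i)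
    (hlt : ∑ i, d i < ∑ j, a j) (f : Fin r → MvPolynomial (Fin n) K)
    (hf : ∀ i, (f i).IsWeightedHomogeneous a (d i)) :
    ∃ v : Fin n → K, v ≠ 0 ∧ ∀ i, eval v (f i) = 0 :=
  Pool.Agent.Lib.MP_73c785_ag.H74.wc1_of_nonreal K hK hneg _ _ a d ha hd f hf hlt

end Pool.Agent.Results.MP_73c785_ag.LangC1
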